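import Pool.Agent.Helper12.MA.StB
import Pool.Agent.Helper12.MA.Lib

/-!
# Project MA, module OTS: the position of the vertices of a cut
-/

set_option autoImplicit false

namespace Pool.Agent.Helper51.MA

open Pool.Agent.Helper12.MA
open Pool.Agent.Helper51.AJ (IsMinor Planar Apex ExMinor Con Tch)
open Pool.Agent.Helper12.NK (rst Kc add cnt Pcy IsFace Cof plus)

variable {V : Type}

/-- a connected set meeting `X` and its complement has an edge between them -/
private theorem con_cross {B : SimpleGraph V} {S : Set V} (h : Con B S) (X : Set V) {a b : V} (ha : a ∈ S) (hb : b ∈ S)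
    (haX : a ∈ X) (hbX : b ∉ X) : ∃ c ∈ S, ∃ d ∈ S, c ∈ X ∧ d ∉ X ∧ B.Adj c d := by
  obtain ⟨w⟩ := h.preconnected ⟨a, ha⟩ ⟨b, hb⟩
  obtain ⟨d, -, h1, h2⟩ := w.exists_boundary_dart {x : S | (x : V) ∈ X} haX hbX
  exact ⟨d.fst, d.fst.2, d.snd, d.snd.2, h1, h2, d.adj⟩

/-- a face through `z` with elements in `X` and in `Y` contains one of the other two vertices of the cut -/
private theorem face_cut (hFAY : StFAY) [Finite V] {G : SimpleGraph V} {z v p q t b : V} {f X Y : Set V}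
    (S : Sep G {v, z, t, b} p q X Y) (hf : IsFace (dl G p q) {v}ᶜ f) (hz : z ∈ f) {a a' : V} (ha : a ∈ f) (ha' : a' ∈ f)
    (haX : a ∈ X) (haY : a' ∈ Y) : t ∈ f ∨ b ∈ f := by
  by_contra hcon
  push Not at hcon
  obtain ⟨ht, hb⟩ := hcon
  have hsub : f ⊆ {v}ᶜ := by
    obtain ⟨m, c, hc, rfl⟩ := hf
    exact hc.2.2.1
  have hXY : ∀ x, x ∈ X ∨ x ∈ Y ↔ x ∉ ({v, z, t, b} : Set V) := fun x => by
    rw [← Set.mem_compl_iff, ← S.cov]; rfl
  have hne : ∀ x, x ∈ X ∨ x ∈ Y → x ≠ z := fun x hx e => (hXY x).1 hx (by rw [e]; simp)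
  have hcon := (hFAY V (dl G p q) {v}ᶜ f hf z hz).1
  have haY' : a' ∉ X := fun h => Set.disjoint_left.1 S.dis h haY
  obtain ⟨c, hc, d, hd, hcX, hdX, hadj⟩ := con_cross hcon X ⟨ha, hne a (Or.inl haX)⟩ ⟨ha', hne a' (Or.inr haY)⟩ haX haY'
  have hdY : d ∈ Y := by
    have h1 : d ∈ X ∨ d ∈ Y := by
      rw [hXY]
      intro hmem
      simp only [Set.mem_insert_iff, Set.mem_singleton_iff] at hmem
      rcases hmem with e | e | e | e
      · exact hsub hd.1 e
      · exact hd.2 e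
      · exact ht (e ▸ hd.1)
      · exact hb (e ▸ hd.1)
    exact h1.resolve_left hdX
  exact hadj.2.1 (S.only c hcX d hdY hadj.1)

theorem hOTS : StFAY → StSPB → StOTS := by
  intro hFAY hSPB V _ G z v p q r r' f1 f2 f3 f4 C t b X Y S
  by_cases hX : X = {p}
  · exact Or.inl hX
  by_cases hY : Y = {q}
  · exact Or.inr (Or.inl hY)
  right; right
  have hdis := Set.disjoint_left.1 S.dis
  have hXY : ∀ x, x ∈ X ∨ x ∈ Y ↔ x ∉ ({v, z, t, b} : Set V) := fun x => by
    rw [← Set.mem_compl_iff, ← S.cov]; rfl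
  -- `t` and `b` are different from `z`
  have hcard := S.card
  have htz : t ≠ z := by
    rintro rfl
    have h1 : ({v, t, t, b} : Set V) = {v, t, b} := by ext x; simp
    rw [h1] at hcard
    have := Set.ncard_insert_le v ({t, b} : Set V)
    have := Set.ncard_insert_le t ({b} : Set V)
    have := Set.ncard_singleton b
    omega
  have hbz : b ≠ z := by
    rintro rfl
    have h1 : ({v, b, t, b} : Set V) = {v, t, b} := by ext x; simp only [Set.mem_insert_iff, Set.mem_singleton_iff]; tauto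
    rw [h1] at hcard
    have := Set.ncard_insert_le v ({t, b} : Set V)
    have := Set.ncard_insert_le t ({b} : Set V)
    have := Set.ncard_singleton b
    omega
  obtain ⟨-, -, S', hnX, -⟩ := hSPB V G {v, z, t, b} X Y p q C.bh S
  obtain ⟨-, -, -, hnY, -⟩ := hSPB V G {v, z, t, b} Y X q p C.bh S'
  have hzX : z ∈ Nb G (X \ {p}) := by rw [hnX hX]; simp
  have hzY : z ∈ Nb G (Y \ {q}) := by rw [hnY hY]; simp
  obtain ⟨-, a, ⟨haX, hap⟩, haz⟩ := hzX
  obtain ⟨-, a', ⟨haY, haq⟩, haz'⟩ := hzY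
  have hvX : ∀ x, x ∈ X ∨ x ∈ Y → x ≠ v := fun x hx e => (hXY x).1 hx (by rw [e]; simp)
  have h1 : a = r ∨ a = r' := by
    rcases (C.ds.nb a).1 haz.symm with e | e | e | e | e
    · exact absurd e (hvX a (Or.inl haX))
    · exact absurd e hap
    · exact absurd S.yR (e ▸ hdis haX)
    · exact Or.inl e
    · exact Or.inr e
  have h2 : a' = r ∨ a' = r' := by
    rcases (C.ds.nb a').1 haz'.symm with e | e | e | e | e
    · exact absurd e (hvX a' (Or.inr haY))
    · exact absurd haY (e ▸ hdis S.xL)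
    · exact absurd e haq
    · exact Or.inl e
    · exact Or.inr e
  have hset : ({v, z, b, t} : Set V) = {v, z, t, b} := by
    ext x; simp only [Set.mem_insert_iff, Set.mem_singleton_iff]; tauto
  have hSw : Sep G {v, z, b, t} p q X Y := by rw [hset]; exact S
  have key : (r' ∈ X ∧ r ∈ Y) ∨ (r ∈ X ∧ r' ∈ Y) := by
    rcases h1 with e1 | e1 <;> rcases h2 with e2 | e2
    · exact absurd (e2 ▸ haY) (hdis (e1 ▸ haX))
    · exact Or.inr ⟨e1 ▸ haX, e2 ▸ haY⟩
    · exact Or.inl ⟨e1 ▸ haX, e2 ▸ haY⟩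
    · exact absurd (e2 ▸ haY) (hdis (e1 ▸ haX))
  -- the sets with the sides exchanged
  rcases key with ⟨hr'X, hrY⟩ | ⟨hrX, hr'Y⟩
  · have k1 := face_cut hFAY S C.i1 C.z1 C.p1 C.r1 S.xL hrY
    have k3 := face_cut hFAY S C.i3 C.z3 C.s3 C.q3 hr'X S.yR
    have hx : ∀ x, x ∈ f1 → x ∈ f3 → x = z := fun x hx1 hx3 => by
      have : x ∈ f1 ∩ f3 := ⟨hx1, hx3⟩
      rw [C.x13] at this
      exact this
    rcases k1 with k1 | k1
    · refine Or.inl ⟨S, k1, ?_, hr'X, hrY⟩
      rcases k3 with k3 | k3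
      · exact absurd (hx t k1 k3) htz
      · exact k3
    · refine Or.inr (Or.inl ⟨hSw, k1, ?_, hr'X, hrY⟩)
      rcases k3 with k3 | k3
      · exact k3
      · exact absurd (hx b k1 k3) hbz
  · have k4 := face_cut hFAY S C.i4 C.z4 C.p4 C.s4 S.xL hr'Y
    have k2 := face_cut hFAY S C.i2 C.z2 C.r2 C.q2 hrX S.yR
    have hx : ∀ x, x ∈ f4 → x ∈ f2 → x = z := fun x hx1 hx3 => by
      have : x ∈ f2 ∩ f4 := ⟨hx3, hx1⟩
      rw [C.x24] at this
      exact this
    rcases k4 with k4 | k4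
    · refine Or.inr (Or.inr (Or.inl ⟨S, k4, ?_, hrX, hr'Y⟩))
      rcases k2 with k2 | k2
      · exact absurd (hx t k4 k2) htz
      · exact k2
    · refine Or.inr (Or.inr (Or.inr ⟨hSw, k4, ?_, hrX, hr'Y⟩))
      rcases k2 with k2 | k2
      · exact k2
      · exact absurd (hx b k4 k2) hbz

end Pool.Agent.Helper51.MA
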